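import Mathlib

set_option autoImplicit false

namespace Pool.Agent.Results.MP_dd6e79_al.NoOscillation

open Filter

/-- `f ⪯ g`. -/
def Prec (f g : ℕ → ℕ) : Prop := ∃ C : ℕ, 1 ≤ C ∧ ∀ n, f n ≤ C * g (C * n)

/-- `f ∼ g`. -/
def Equi (f g : ℕ → ℕ) : Prop := Prec f g ∧ Prec g f

/-- The elements `x * y₁ * ⋯ * y_k` with `x, yᵢ ∈ X` and `k + 1 ≤ n`. -/
def ball {S : Type} [Semigroup S] (X : Finset S) (n : ℕ) : Set S :=
  {s | ∃ (x : S) (l : List S), x ∈ X ∧ (∀ y ∈ l, y ∈ X) ∧ l.length + 1 ≤ n ∧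
    l.foldl (· * ·) x = s}

/-- The growth function of `S` with respect to `X`. -/
noncomputable def growth {S : Type} [Semigroup S] (X : Finset S) (n : ℕ) : ℕ :=
  (ball X n).ncard

/-- `S` is isomorphic to the quotient of a free semigroup of finite rank by the congruence
generated by finitely many relations. -/
def FinPres (S : Type) [Semigroup S] : Prop :=
  ∃ (k : ℕ) (R : Finset (FreeSemigroup (Fin k) × FreeSemigroup (Fin k))),
    Nonempty (S ≃* (conGen (fun u v => (u, v) ∈ R)).Quotient)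

section basic
variable {S : Type} [Semigroup S]

lemma foldl_mul (l : List S) (a b : S) :
    l.foldl (· * ·) (a * b) = a * l.foldl (· * ·) b := by
  induction l generalizing b with
  | nil => rfl
  | cons c l ih => simp only [List.foldl_cons]; rw [mul_assoc, ih]

lemma ball_zero (X : Finset S) : ball X 0 = ∅ := by
  ext s; simp [ball]

lemma ball_mono (X : Finset S) {m n : ℕ} (h : m ≤ n) : ball X m ⊆ ball X n := by
  rintro s ⟨x, l, hx, hl, hlen, rfl⟩
  exact ⟨x, l, hx, hl, hlen.trans h, rfl⟩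

lemma ball_one (X : Finset S) : ball X 1 ⊆ (X : Set S) := by
  rintro s ⟨x, l, hx, hl, hlen, rfl⟩
  have : l = [] := List.length_eq_zero_iff.mp (by omega)
  subst this
  exact hx

lemma ball_add (X : Finset S) (m n : ℕ) (hm : 1 ≤ m) :
    ball X (m + n) ⊆ ball X m ∪ Set.image2 (· * ·) (ball X m) (ball X n) := by
  rintro s ⟨x, l, hx, hl, hlen, rfl⟩
  by_cases h : l.length + 1 ≤ m
  · exact Or.inl ⟨x, l, hx, hl, h, rfl⟩
  · right
    have hlt : m - 1 < l.length := by omega
    refine ⟨(l.take (m - 1)).foldl (· * ·) x, ⟨x, l.take (m - 1), hx,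
      fun y hy => hl y (List.mem_of_mem_take hy), by simp; omega, rfl⟩,
      (l.drop m).foldl (· * ·) l[m - 1], ⟨l[m - 1], l.drop m, hl _ (List.getElem_mem _),
      fun y hy => hl y (List.mem_of_mem_drop hy), by simp; omega, rfl⟩, ?_⟩
    have e : l = l.take (m - 1) ++ l[m - 1] :: l.drop m := by
      have h1 := List.take_append_drop (m - 1) l
      have h2 := List.drop_eq_getElem_cons hlt
      have h3 : m - 1 + 1 = m := by omega
      rw [h3] at h2
      rw [← h2, h1]
    conv_rhs => rw [e]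
    rw [List.foldl_append, List.foldl_cons, foldl_mul]

lemma ball_finite (X : Finset S) (n : ℕ) : (ball X n).Finite := by
  have h1 : (ball X 1).Finite := X.finite_toSet.subset (ball_one X)
  induction n with
  | zero => rw [ball_zero]; exact Set.finite_empty
  | succ n ih =>
    rw [add_comm]
    exact (h1.union (h1.image2 _ ih)).subset (ball_add X 1 n le_rfl)

lemma growth_mono (X : Finset S) {m n : ℕ} (h : m ≤ n) : growth X m ≤ growth X n :=
  Set.ncard_le_ncard (ball_mono X h) (ball_finite X n)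

lemma growth_add (X : Finset S) (m n : ℕ) (hm : 1 ≤ m) :
    growth X (m + n) + 1 ≤ (growth X m + 1) * (growth X n + 1) := by
  have h1 : growth X (m + n) ≤
      (ball X m ∪ Set.image2 (· * ·) (ball X m) (ball X n)).ncard :=
    Set.ncard_le_ncard (ball_add X m n hm)
      ((ball_finite X m).union ((ball_finite X m).image2 _ (ball_finite X n)))
  have h2 := Set.ncard_union_le (ball X m) (Set.image2 (· * ·) (ball X m) (ball X n))
  have h3 : (Set.image2 (· * ·) (ball X m) (ball X n)).ncard ≤ growth X m * growth X n := by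
    rw [← Set.image_uncurry_prod]
    refine (Set.ncard_image_le ((ball_finite X m).prod (ball_finite X n))).trans ?_
    rw [Set.ncard_prod]; rfl
  unfold growth at *
  nlinarith

lemma growth_mul (X : Finset S) (m q r : ℕ) (hm : 1 ≤ m) :
    growth X (m * q + r) + 1 ≤ (growth X m + 1) ^ q * (growth X r + 1) := by
  induction q with
  | zero => simp
  | succ q ih =>
    have : m * (q + 1) + r = m + (m * q + r) := by ring
    rw [this]
    refine (growth_add X m _ hm).trans ?_
    rw [pow_succ', mul_assoc]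
    exact Nat.mul_le_mul_left _ ih

/-- The subexponential alternative. -/
def SubExp (g : ℕ → ℕ) : Prop :=
  ∀ j : ℕ, ∃ M : ℕ, ∀ n, g n ≤ 2 ^ ((n + M) / (j + 1) + 1)

lemma dichotomy (X : Finset S) :
    SubExp (growth X) ∨ ∀ᶠ n in atTop, n ^ 3 ≤ growth X n := by
  by_cases h : ∀ j : ℕ, ∃ m, 1 ≤ m ∧ (growth X m + 1) ^ (j + 1) ≤ 2 ^ m
  · left
    intro j
    obtain ⟨m, hm, hle⟩ := h j
    refine ⟨m, fun n => ?_⟩
    have h1 := growth_mul X m (n / m) (n % m) hm
    rw [Nat.div_add_mod] at h1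
    have h2 : growth X (n % m) + 1 ≤ growth X m + 1 :=
      Nat.succ_le_succ (growth_mono X (Nat.mod_lt _ hm).le)
    have h3 : growth X n + 1 ≤ (growth X m + 1) ^ (n / m + 1) := by
      rw [pow_succ]; exact h1.trans (Nat.mul_le_mul_left _ h2)
    have h4 : (growth X n + 1) ^ (j + 1) ≤ 2 ^ (n + m) := by
      calc (growth X n + 1) ^ (j + 1) ≤ ((growth X m + 1) ^ (n / m + 1)) ^ (j + 1) :=
            Nat.pow_le_pow_left h3 _
        _ = ((growth X m + 1) ^ (j + 1)) ^ (n / m + 1) := by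
            rw [← pow_mul, ← pow_mul, mul_comm]
        _ ≤ (2 ^ m) ^ (n / m + 1) := Nat.pow_le_pow_left hle _
        _ = 2 ^ (m * (n / m) + m) := by rw [← pow_mul]; ring_nf
        _ ≤ 2 ^ (n + m) :=
            Nat.pow_le_pow_right (by norm_num) (Nat.add_le_add_right (Nat.mul_div_le n m) _)
    have h5 : n + m ≤ ((n + m) / (j + 1) + 1) * (j + 1) := by
      have := Nat.lt_div_mul_add (a := n + m) (b := j + 1) (by omega)
      nlinarith
    have h6 : (growth X n + 1) ^ (j + 1) ≤ (2 ^ ((n + m) / (j + 1) + 1)) ^ (j + 1) := by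
      rw [← pow_mul]; exact h4.trans (Nat.pow_le_pow_right (by norm_num) h5)
    have h7 := (Nat.pow_le_pow_iff_left (by omega : j + 1 ≠ 0)).mp h6
    omega
  · right
    push Not at h
    obtain ⟨j, hj⟩ := h
    have ht := tendsto_pow_const_div_const_pow_of_one_lt (3 * (j + 1)) (r := 2) (by norm_num)
    have hev := ht.eventually (gt_mem_nhds (by norm_num : (0 : ℝ) < 1))
    filter_upwards [hev, eventually_ge_atTop 1] with n hn hn1
    by_contra hc
    push Not at hc
    have h1 := hj n hn1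
    have h2 : (growth X n + 1) ^ (j + 1) ≤ n ^ (3 * (j + 1)) := by
      rw [pow_mul]; exact Nat.pow_le_pow_left hc _
    rw [div_lt_one (by positivity)] at hn
    have h3 : n ^ (3 * (j + 1)) < 2 ^ n := by exact_mod_cast hn
    omega

lemma growth_equiv {T : Type} [Semigroup T] (e : S ≃* T) (X : Finset S) (Y : Finset T)
    (h : ∀ s, s ∈ X ↔ e s ∈ Y) : growth X = growth Y := by
  funext n
  have key : ∀ (l : List S) (x : S),
      e (l.foldl (· * ·) x) = (l.map e).foldl (· * ·) (e x) := by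
    intro l
    induction l with
    | nil => intro x; rfl
    | cons c l ih => intro x; simp only [List.foldl_cons, List.map_cons]; rw [ih, map_mul]
  have : ball Y n = e '' ball X n := by
    ext t
    constructor
    · rintro ⟨y, l, hy, hl, hlen, rfl⟩
      refine ⟨(l.map e.symm).foldl (· * ·) (e.symm y), ⟨e.symm y, l.map e.symm, ?_, ?_, ?_, rfl⟩,
        ?_⟩
      · rw [h]; simpa using hy
      · intro z hz
        obtain ⟨w, hw, rfl⟩ := List.mem_map.mp hz
        rw [h]; simpa using hl w hw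
      · simpa using hlen
      · rw [key]; simp [List.map_map]
    · rintro ⟨s, ⟨x, l, hx, hl, hlen, rfl⟩, rfl⟩
      refine ⟨e x, l.map e, (h x).mp hx, ?_, by simpa using hlen, (key l x).symm⟩
      intro z hz
      obtain ⟨w, hw, rfl⟩ := List.mem_map.mp hz
      exact (h w).mp (hl w hw)
  unfold growth
  rw [this, Set.ncard_image_of_injective _ e.injective]

end basic

lemma countable_free (k : ℕ) : Countable (FreeSemigroup (Fin k)) := by
  have : Function.Injective (fun w : FreeSemigroup (Fin k) => (w.head, w.tail)) := by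
    rintro ⟨a, b⟩ ⟨c, d⟩ h
    simp only [Prod.mk.injEq] at h
    rw [h.1, h.2]
  exact this.countable

/-- Only countably many growth functions occur. -/
lemma countable_growth : ∃ G : ℕ → ℕ → ℕ, ∀ (S : Type) [Semigroup S], FinPres S →
    ∀ X : Finset S, ∃ i, growth X = G i := by
  classical
  let I := Σ k : ℕ, Finset (FreeSemigroup (Fin k) × FreeSemigroup (Fin k)) ×
    Finset (FreeSemigroup (Fin k))
  have := countable_free
  have hI : Countable I := inferInstance
  have hne : Nonempty I := ⟨⟨0, ∅, ∅⟩⟩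
  obtain ⟨φ, hφ⟩ := exists_surjective_nat I
  let G0 : I → ℕ → ℕ := fun i =>
    growth (S := (conGen (fun u v => (u, v) ∈ i.2.1)).Quotient)
      (i.2.2.image (fun w : FreeSemigroup (Fin i.1) =>
        (w : (conGen (fun u v => (u, v) ∈ i.2.1)).Quotient)))
  refine ⟨fun n => G0 (φ n), ?_⟩
  rintro S _ ⟨k, R, ⟨e⟩⟩ X
  have hs : ∀ q : (conGen (fun u v => (u, v) ∈ R)).Quotient,
      ∃ w : FreeSemigroup (Fin k), (w : (conGen (fun u v => (u, v) ∈ R)).Quotient) = q :=
    fun q => Quotient.exists_rep q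
  choose σ hσ using hs
  obtain ⟨n, hn⟩ := hφ ⟨k, R, X.image (fun s => σ (e s))⟩
  refine ⟨n, ?_⟩
  simp only [hn]
  refine growth_equiv e X _ (fun s => ?_)
  simp only [Finset.mem_image]
  constructor
  · intro hs; exact ⟨σ (e s), ⟨s, hs, rfl⟩, hσ _⟩
  · rintro ⟨w, ⟨t, ht, rfl⟩, h⟩
    rw [hσ] at h
    rwa [← e.injective h]

/-- A sublinear exponent dominating countably many subexponential functions. -/
lemma dominate (G : ℕ → ℕ → ℕ) : ∃ a : ℕ → ℕ, Monotone a ∧
    (∀ j, ∃ M, ∀ n, a n ≤ (n + M) / (j + 1) + 1) ∧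
    ∀ i, SubExp (G i) → ∀ᶠ n in atTop, G i n ≤ 2 ^ a n := by
  classical
  have h0 : ∀ i j, ∃ M : ℕ, SubExp (G i) → ∀ n, G i n ≤ 2 ^ ((n + M) / (j + 1) + 1) := by
    intro i j
    by_cases h : SubExp (G i)
    · obtain ⟨M, hM⟩ := h j
      exact ⟨M, fun _ => hM⟩
    · exact ⟨0, fun h' => absurd h' h⟩
  choose m hm using h0
  let M : ℕ → ℕ := fun j => (Finset.range (j + 1)).sup (fun i => m i j)
  let b : ℕ → ℕ → ℕ := fun j n => (n + M j) / (j + 1) + 1
  have hb : ∀ i j, i ≤ j → SubExp (G i) → ∀ n, G i n ≤ 2 ^ b j n := by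
    intro i j hij h n
    refine (hm i j h n).trans (Nat.pow_le_pow_right (by norm_num) ?_)
    have : m i j ≤ M j :=
      Finset.le_sup (f := fun i => m i j) (Finset.mem_range.mpr (by omega))
    exact Nat.succ_le_succ (Nat.div_le_div_right (by omega))
  let a : ℕ → ℕ := fun n => sInf (Set.range fun j => b j n)
  have ha1 : ∀ n j, a n ≤ b j n := fun n j => Nat.sInf_le ⟨j, rfl⟩
  have ha2 : ∀ n, ∃ j, b j n = a n := fun n =>
    Nat.sInf_mem (s := Set.range fun j => b j n) ⟨_, 0, rfl⟩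
  refine ⟨a, ?_, fun j => ⟨M j, fun n => ha1 n j⟩, ?_⟩
  · intro n n' hn
    obtain ⟨j, hj⟩ := ha2 n'
    rw [← hj]
    exact (ha1 n j).trans (Nat.succ_le_succ (Nat.div_le_div_right (by omega)))
  · intro i hi
    filter_upwards [eventually_ge_atTop (M i * (i + 1))] with n hn
    obtain ⟨j, hj⟩ := ha2 n
    rw [← hj]
    by_cases hij : i ≤ j
    · exact hb i j hij hi n
    · refine (hb i i le_rfl hi n).trans (Nat.pow_le_pow_right (by norm_num) ?_)
      refine Nat.succ_le_succ ?_
      have h1 : M i ≤ (n + M i) / (i + 1) :=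
        (Nat.le_div_iff_mul_le (by omega)).mpr (by omega)
      have h2 : (n + M i) / (i + 1) * (i + 1) ≤ n + M i := Nat.div_mul_le_self _ _
      refine (Nat.le_div_iff_mul_le (by omega)).mpr ?_
      have h3 : (n + M i) / (i + 1) * (j + 1) ≤ (n + M i) / (i + 1) * i :=
        Nat.mul_le_mul_left _ (by omega)
      nlinarith

theorem result : ∃ f₁ f₂ : ℕ → ℕ, StrictMono f₁ ∧ StrictMono f₂ ∧
    Prec (fun n => n ^ 2) f₁ ∧ Prec f₂ (fun n => 2 ^ n) ∧
    ¬ Equi f₁ (fun n => n ^ 2) ∧ ¬ Equi f₂ (fun n => 2 ^ n) ∧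
    ∀ (S : Type) [Semigroup S], FinPres S → ∀ X : Finset S,
      Subsemigroup.closure (X : Set S) = ⊤ →
      (∀ᶠ n in atTop, f₁ n ≤ growth X n) ∨ (∀ᶠ n in atTop, growth X n ≤ f₂ n) := by
  obtain ⟨G, hG⟩ := countable_growth
  obtain ⟨a, hmono, hsub, hdom⟩ := dominate G
  refine ⟨fun n => n ^ 3, fun n => 2 ^ a n + n, ?_, ?_, ?_, ?_, ?_, ?_, ?_⟩
  · intro m n h; exact Nat.pow_lt_pow_left h (by norm_num)
  · intro m n h
    have := Nat.pow_le_pow_right (by norm_num : 0 < 2) (hmono h.le)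
    simp only; omega
  · refine ⟨1, le_rfl, fun n => ?_⟩
    simp only [one_mul]
    rcases Nat.eq_zero_or_pos n with rfl | h
    · simp
    · exact Nat.pow_le_pow_right h (by norm_num)
  · obtain ⟨M, hM⟩ := hsub 0
    refine ⟨2 ^ (M + 2), Nat.one_le_two_pow, fun n => ?_⟩
    have h1 : 2 ^ a n ≤ 2 ^ (n + M + 1) :=
      Nat.pow_le_pow_right (by norm_num) (by simpa using hM n)
    have h2 : n ≤ 2 ^ (n + M + 1) := (by omega : n ≤ n + M + 1).trans Nat.lt_two_pow_self.le
    have h3 : 2 ^ n ≤ 2 ^ (2 ^ (M + 2) * n) :=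
      Nat.pow_le_pow_right (by norm_num) (Nat.le_mul_of_pos_left _ (by positivity))
    calc 2 ^ a n + n ≤ 2 ^ (n + M + 1) + 2 ^ (n + M + 1) := Nat.add_le_add h1 h2
      _ = 2 ^ (M + 2) * 2 ^ n := by ring
      _ ≤ _ := Nat.mul_le_mul_left _ h3
  · rintro ⟨⟨C, hC, h⟩, -⟩
    have h1 := h (C ^ 3 + 1)
    simp only at h1
    have h2 : (C ^ 3 + 1) ^ 2 * (C ^ 3 + 1) ≤ (C ^ 3 + 1) ^ 2 * C ^ 3 := by
      calc _ = (C ^ 3 + 1) ^ 3 := by ring
        _ ≤ _ := h1
        _ = _ := by ring
    have h3 := Nat.le_of_mul_le_mul_left h2 (by positivity)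
    omega
  · rintro ⟨-, ⟨C, hC, h⟩⟩
    obtain ⟨M, hM⟩ := hsub (2 * C - 1)
    have hC2 : 2 * C - 1 + 1 = 2 * C := by omega
    rw [hC2] at hM
    set K := C * 2 ^ (M + 1) + 2 * C ^ 2 with hK
    have h1 := h (2 * K)
    simp only at h1
    have h2 : a (C * (2 * K)) ≤ K + M + 1 := by
      refine (hM _).trans (Nat.succ_le_succ ?_)
      refine Nat.div_le_of_le_mul ?_
      nlinarith
    have h3 : 2 ^ a (C * (2 * K)) ≤ 2 ^ (K + M + 1) := Nat.pow_le_pow_right (by norm_num) h2
    have h4 : K < 2 ^ K := Nat.lt_two_pow_self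
    have h5 : 2 ^ K * 2 ^ K ≤ 2 ^ K * K := by
      calc 2 ^ K * 2 ^ K = 2 ^ (2 * K) := by ring
        _ ≤ C * (2 ^ a (C * (2 * K)) + C * (2 * K)) := h1
        _ ≤ C * (2 ^ (K + M + 1) + C * (2 * 2 ^ K)) := by gcongr
        _ = 2 ^ K * (C * 2 ^ (M + 1) + 2 * C ^ 2) := by ring
    have h6 := Nat.le_of_mul_le_mul_left h5 (by positivity)
    omega
  · intro S _ hS X _
    obtain ⟨i, hi⟩ := hG S hS X
    rcases dichotomy X with h | h
    · right
      rw [hi] at h ⊢
      filter_upwards [hdom i h] with n hn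
      exact hn.trans (Nat.le_add_right _ _)
    · exact Or.inl h

end Pool.Agent.Results.MP_dd6e79_al.NoOscillation
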